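import Pool.Agent.Run7.h375.SC.Inv

/-!
# The section conjecture for curves without real points: free quadratic steps

Let `K` be a number field and `Ω` its algebraic closure. Let `F` be the function field of a smooth
curve `X` over `K` and `N` the function field of its universal pro-étale cover, so that `N` is a
Galois extension of `F` which contains `Ω`, and `Gal(N/F)` is the fundamental group of `X`.

Suppose that a complex conjugation `c` does not lift to an involution in `Gal(N/F)`. For curves of
genus at least two this says that `X` has no real points at the real place which belongs to `c`.

Then the section conjecture for `X` in its valuative form, over all finite extensions of `K`, holds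
if and only if it does not get worse in free quadratic steps: Galois extensions `L/E` of degree two,
unramified at all finite places and split at the places above an integer `m`, which may depend on
the section.
-/

set_option autoImplicit false

namespace Pool.Agent.Results.MP_896029_ag.QuadraticSteps

open IntermediateField Run7.h375.SC

/-- **Section conjecture and free quadratic steps.** -/
theorem result {K Ω F N : Type} [Field K] [NumberField K] [Field Ω] [Algebra K Ω]
    [IsAlgClosure K Ω] [Field F] [Field N] [Algebra K F] [Algebra F N] [IsGalois F N]
    [Algebra K N] [Algebra Ω N] [IsScalarTower K F N] [IsScalarTower K Ω N]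
    (c : Gal(Ω/K)) (hc2 : c * c = 1)
    (hc : ∀ γ : Gal(N/F), (∀ y : Ω, γ (algebraMap Ω N y) = algebraMap Ω N (c y)) → γ * γ ≠ 1)
    (m : (Gal(Ω/K) → Gal(N/F)) → ℤ) (hm : ∀ s, m s ≠ 0)
    (hm' : ∀ s t, SameGerm s t → m s = m t) :
    (∀ L : IntermediateField K Ω, FiniteDimensional K L → SectionConjecture F N L) ↔
      ∀ (s : Gal(Ω/K) → Gal(N/F)) (E L : IntermediateField K Ω),
        IsFreeStep {2} (m s) E L → GivenOrExtends E L s :=
  inv_main c hc2 hc m hm hm'

end Pool.Agent.Results.MP_896029_ag.QuadraticSteps
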