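import Pool.Agent.Results.MP_2f3286_ag.KummerClassesAtFiniteLevels
import Pool.Agent.Run7.h369.V5.Div
import Pool.Agent.Run7.h369.V5.Res
import Pool.Agent.Run7.h369.D3.Att
import Pool.Agent.Y157.PC.Unr

/-!
# The valuative form of the section conjecture on the division fields of the elliptic quotients

Let `N ≥ 6` be even and let `e_1, …, e_N` be different integers which satisfy the condition `CrossRatio`
below.  For squarefree `d` let `C_d` be the curve `d y² = ∏ (x - e_k)`, of genus `N/2 - 1 ≥ 2`, with
function field `F = R(y) ⊆ Ω`, where `R = ℚ(x)` and `Ω` is an algebraic closure of `R`, and with the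
rational points `P_k = (e_k, 0)`.  Let `F_U` be the maximal extension of `F` in `Ω` which is unramified
over `U`, where `U` is `C_d` or an open subcurve, so that `π₁(U) = Gal(F_U/F)`; for `U = C_d` this is the
function field of the universal pro-étale cover.

Let `T` be a set of four indices and `E_T : D w² = ∏_{k ∈ T} (x - e_k)`, an elliptic curve with the
origin `(e_t, 0)`, for some `t ∈ T`; it is a quotient of an unramified abelian covering of `C_d`.  Let
`L_{T,n} ⊆ F_U` be the field generated over `F` by the algebraic numbers and by the coordinates of all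
points `R` of `E_T` over `F_U` with `2^n R = (x, w)`.  So `L_{T,n}` is the function field of the
covering of the elliptic curve over `ℚ̄` given by multiplication with `2^n`, together with `F`.

**Theorem.**  Let `n` be a natural number.  There are `δ > 0` and `C`, such that for all squarefree
`d`, `|d| ≤ X`, with at most `C X (log X)^(-δ)` exceptions, the following is true for every section
`s : G_ℚ → π₁(U)`.  There is exactly one index `i` such that `s` is attached to `P_i` modulo 2.  For
this `i` and for all sets `T` of four other indices which satisfy `NonSquares` there is a prolongation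
`W` to `F_U` of the valuation of `F` at `P_i`, a valuation with residue field `ℚ`, such that for every
`σ ∈ G_ℚ` there is an element `τ` over `σ` of the decomposition group `D_W ⊆ Gal(F_U/F)` with `s(σ) = τ`
on `L_{T,n}`.  For `e = 0, 1, 2, 4, 7, 13` the condition `CrossRatio` is true, and the condition
`NonSquares` is true for all `T`.

So for these curves every section is contained in a decomposition group `D_W`, after restriction to
the field `L_{T,n}`, for a valuation `w` with residue field `ℚ`: this is the valuative form of the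
section conjecture on the fields `L_{T,n}`.  The sections are arbitrary; it is not assumed that they
are locally geometric.  On `L_{T,n}` there is one place `W` for all `σ`; in
`MP_c1dca2_ag.SectionsAtFiniteLevels` a place was found for every single `σ` (for more general
finite extensions).

The fundamental group is described through valuations.  Let `U` be a smooth geometrically connected
curve over `k` with function field `F`, let `Ω` be an algebraic closure of `F`, and let `F_U` be the
maximal extension of `F` inside `Ω` which is unramified over the closed points of `U`, that is, over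
their local rings, which are valuation rings of `F`.  Then `π₁(U) = Gal(F_U/F)`, and the map
`π₁(U) → G_k` is the restriction of automorphisms to the algebraic closure of `k` in `Ω`.

Proof.  By `MP_2f3286_ag.KummerClassesAtFiniteLevels` there are, for almost all `d`, an element `w`
and a point `R` of `E_T`, both fixed by `s`, such that `2^n R = P - Q` or `2^n R = P + Q`, where
`P = (x, w)` and `Q = (e_i, 1)`; here `D = ∏_{k ∈ T} (e_i - e_k)`.  The first coordinate of `R` is
transcendental, so there is a valuation ring `W` of `Ω` over `ℚ` where `R` reduces to zero.  There `P`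
reduces to `Q` or to `-Q`, and therefore `x` reduces to `e_i`: the ring `W` lies above `P_i`.  Since
the geometric decomposition groups above a branch point are conjugate (part UNQF of helper768), for
every `σ` there is an automorphism `τ` of `Ω` over `F` which stabilises `W` and acts as `σ` on the
algebraic numbers.  It fixes `w`, because `w` reduces to `1` or to `-1`, and so it fixes `P`.  The
difference `τ R - R` is a point whose order divides `2^n`, so it is constant, and it reduces to zero; so
`τ R = R`.  Every point `R'` with `2^n R' = (x, ±w)` is of the form `± R + S` with a constant point `S`,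
and on these points `τ` and `s(σ)` are equal.

-/

open Polynomial
open scoped Pointwise

namespace Pool.Agent.Results.MP_896029_ag.ValuativeDivisionFields

section definitions

variable (k F Ω : Type) [Field k] [Field F] [Field Ω] [Algebra k F] [Algebra F Ω]
  [Algebra k Ω]

/-- The inertia group of the valuation ring `W` of `Ω`, as a subgroup of `Gal(Ω/F)`: the
automorphisms of `Ω` over `F` that map `W` onto itself and act as the identity on its residue
field. -/
noncomputable def inertia (W : ValuationSubring Ω) : Subgroup (Ω ≃ₐ[F] Ω) :=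
  (W.inertiaSubgroup F).map (W.decompositionSubgroup F).subtype

/-- `F_U`, for a set `U` of valuation rings of `F`: the elements of `Ω` fixed by the inertia groups
of all valuation rings `W` of `Ω` with `W ∩ F ∈ U`.  If `Ω` is an algebraic closure of a field `F`
of characteristic zero, this is the maximal extension of `F` in `Ω` unramified over `U`. -/
noncomputable def unramified (U : Set (ValuationSubring F)) : IntermediateField F Ω :=
  ⨅ W : {W : ValuationSubring Ω // W.comap (algebraMap F Ω) ∈ U},
    IntermediateField.fixedField (inertia F Ω W.1)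

/-- The map `τ : M → M` acts as `σ : K → K` on the elements that the fields `K` and `M` have in
common when they are regarded as subfields of `Ω` through `i` and `j`. -/
def ActsAs {K M Ω : Type} [Field K] [Field M] [Field Ω] (i : K →+* Ω) (j : M →+* Ω) (σ : K → K)
    (τ : M → M) : Prop :=
  ∀ c z, j z = i c → j (τ z) = i (σ c)

/-- Let `k ⊆ K ⊆ Ω` and `F ⊆ N ⊆ Ω` be fields.  A splitting of `Gal(N/F) → Gal(K/k)`: a continuous
homomorphism `s` from `Gal(K/k)` to `Gal(N/F)` such that `s(σ)` acts as `σ` on the elements of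
`K ∩ N`. -/
structure Splitting (K N : Type) [Field K] [Field N] [Algebra k K] [Algebra F N] [Algebra K Ω]
    [Algebra N Ω] where
  /-- the homomorphism `Gal(K/k) → Gal(N/F)` -/
  toHom : (K ≃ₐ[k] K) →* (N ≃ₐ[F] N)
  cont : Continuous toHom
  compat : ∀ σ : K ≃ₐ[k] K, ActsAs (algebraMap K Ω) (algebraMap N Ω) σ (toHom σ)

/-- The sections of `π₁(U) = Gal(F_U/F) → G_k`: the continuous homomorphisms `s` from
`G_k = Gal(k̄/k)` to `Gal(F_U/F)`, where `k̄` is the algebraic closure of `k` in `Ω`, such that
`s(σ)` acts as `σ` on the elements of `k̄`. -/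
abbrev GaloisSection (U : Set (ValuationSubring F)) : Type :=
  Splitting k F Ω (algebraicClosure k Ω) (unramified F Ω U)

end definitions

section attached

variable {k F N L Ω K : Type} [Field k] [Field F] [Field N] [Field L] [Field Ω] [Algebra k F]
  [Algebra F Ω] [Algebra k Ω] [Algebra k L] [Algebra F N] [Algebra L Ω] [Algebra N Ω]

/-- `z` is algebraic over `k`, where `k` is mapped to `M` by `i`. -/
def AlgOver {k M : Type} [Field k] [Field M] (i : k →+* M) (z : M) : Prop :=
  ∃ p : k[X], p ≠ 0 ∧ p.eval₂ i z = 0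

/-- The subfield `M₂` of the extension `N` of `F`, generated over `F` by all elements of `N` that are
algebraic over `k`, and by all square roots in `N` of the functions `(x - e_i)/(x - e_j)`. -/
def M₂ (j : F →+* N) (e : K → k) (x : F) : Subfield N :=
  Subfield.closure (Set.range j ∪ {z | AlgOver (j.comp (algebraMap k F)) z} ∪
    {z | ∃ i i', z ^ 2 * j (x - algebraMap k F (e i')) = j (x - algebraMap k F (e i))})

/-- The valuation ring `W` of `N` is a prolongation of the ring of a valuation of `F` which is trivial on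
`k`, has residue field `k`, and is positive on the function `t ∈ F`: the ring `W` contains `k`, the
function `t` is in its maximal ideal, and every element of `F ∩ W` is congruent to an element of `k`
modulo the maximal ideal.  For `t = x - e_i` this says that `W` is a prolongation of the valuation ring
of `F` at the branch point `P_i`. -/
def ZeroAt (k : Type) {F N : Type} [Field k] [Field F] [Field N] [Algebra k F] [Algebra F N]
    (W : ValuationSubring N) (t : F) : Prop :=
  (∀ c : k, algebraMap F N (algebraMap k F c) ∈ W) ∧ algebraMap F N t ∈ W.nonunits ∧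
    ∀ z : F, algebraMap F N z ∈ W → ∃ c : k, algebraMap F N (z - algebraMap k F c) ∈ W.nonunits

/-- The splitting `s` of `Gal(N/F) → Gal(L/k)` is attached modulo 2 to the branch point `P_i`: there
is a valuation ring `W` of `N` above `P_i`, such that the image of `s` lies in the decomposition group
of `W ∩ M₂`. -/
def AttachedModTwo (e : K → k) (x : F) (s : Splitting k F Ω L N) (i : K) : Prop :=
  ∃ W : ValuationSubring N, ZeroAt k W (x - algebraMap k F (e i)) ∧
    ∀ z ∈ M₂ (algebraMap F N) e x, ∀ σ, s.toHom σ z ∈ W ↔ z ∈ W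

/-- On the subfield `M` of `N` the image of the splitting `s` of `Gal(N/F) → Gal(L/k)` lies in the
decomposition group of a prolongation `W` to `N` of the valuation of `F` at the `k`-rational point where
the function `t ∈ F` vanishes: for every `σ` there is an element `τ` of the decomposition group of
`W` which acts as `σ` on the elements of `L ∩ N`, such that `s(σ) = τ` on `M`. -/
def InDecompositionGroupOn (s : Splitting k F Ω L N) (M : Subfield N) (t : F) : Prop :=
  ∃ W : ValuationSubring N, ZeroAt k W t ∧ ∀ σ : L ≃ₐ[k] L, ∃ τ ∈ W.decompositionSubgroup F,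
    ActsAs (algebraMap L Ω) (algebraMap N Ω) σ τ ∧ ∀ z ∈ M, s.toHom σ z = τ z

end attached

section elliptic

/-- The curve `y² = x³ + a x + b` over `N`. -/
def cubic {N : Type} [Field N] (a b : N) : WeierstrassCurve N :=
  { a₁ := 0, a₂ := 0, a₃ := 0, a₄ := a, a₆ := b }

/-- `P` is the point `(x, y)` of the curve `E`. -/
def IsPt {N : Type} [Field N] {E : WeierstrassCurve N} (P : E.toAffine.Point) (x y : N) : Prop :=
  ∃ h, P = .some x y h

variable {k : Type} [Field k] (u t : k) (c : Fin 3 → k)

/-- The constant `D` for which the point `(u, 1)` is on the curve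
`D w² = (x - t) (x - c_0) (x - c_1) (x - c_2)`. -/
def constD : k := (u - t) * ((u - c 0) * (u - c 1) * (u - c 2))

/-- The constant `g` of the coordinate `X = g / (x - t) + h` of the Weierstrass equation. -/
def constG : k := -((c 0 - t) * (c 1 - t) * (c 2 - t)) / constD u t c

/-- The constant `h` of the coordinate `X = g / (x - t) + h`; it makes the sum of the values of `X` at
`c_0`, `c_1`, `c_2` equal to zero. -/
def constH : k :=
  -(constG u t c / (c 0 - t) + constG u t c / (c 1 - t) + constG u t c / (c 2 - t)) / 3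

/-- The value of `X = g / (x - t) + h` at `x = c_j`, a root of the cubic polynomial. -/
def rootE (j : Fin 3) : k := constG u t c / (c j - t) + constH u t c

/-- The coefficient `a` of `X³ + a X + b = ∏ (X - rootE j)`. -/
def coefA : k := rootE u t c 0 * rootE u t c 1 + rootE u t c 0 * rootE u t c 2 +
  rootE u t c 1 * rootE u t c 2

/-- The coefficient `b` of `X³ + a X + b = ∏ (X - rootE j)`. -/
def coefB : k := -(rootE u t c 0 * rootE u t c 1 * rootE u t c 2)

/-- The elliptic curve `E : Y² = X³ + a X + b` over the extension `N` of `k` (by `j`). -/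
def curveE {N : Type} [Field N] (j : k →+* N) : WeierstrassCurve N :=
  cubic (j (coefA u t c)) (j (coefB u t c))

/-- `P` is the point of `E` with the coordinates `X = g / (x - t) + h`, `Y = g w / (x - t)²`, where
`(x, w)` is a point over `N` of `D w² = (x - t) (x - c_0) (x - c_1) (x - c_2)`. -/
def PointXW {N : Type} [Field N] (j : k →+* N) (x w : N)
    (P : (curveE u t c j).toAffine.Point) : Prop :=
  j (constD u t c) * w ^ 2 = (x - j t) * ((x - j (c 0)) * (x - j (c 1)) * (x - j (c 2))) ∧
    IsPt P (j (constG u t c) / (x - j t) + j (constH u t c)) (j (constG u t c) * w / (x - j t) ^ 2)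

open scoped Classical in
/-- Let `E` be the elliptic curve `D w² = (x - t) (x - c_0) (x - c_1) (x - c_2)` over `k`, with the
origin `(t, 0)`, in the Weierstrass form `Y² = X³ + a X + b`, where `X = g / (x - t) + h` and
`Y = g w / (x - t)²`, and let `N` be an extension of the function field `F ∋ x` (by `j`).  The subfield of
`N` generated over `F` by all elements of `N` that are algebraic over `k`, and by the coordinates of all
points `R` of `E` over `N` such that `2^n R` is a point `(x, w)`. -/
def DivisionField {F N : Type} [Field F] [Field N] [Algebra k F] (j : F →+* N) (x : F) (n : ℕ) :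
    Subfield N :=
  Subfield.closure (Set.range j ∪ {z | AlgOver (j.comp (algebraMap k F)) z} ∪
    {z | ∃ (w X Y : N) (P R : (curveE u t c (j.comp (algebraMap k F))).toAffine.Point),
      PointXW u t c (j.comp (algebraMap k F)) (j x) w P ∧ IsPt R X Y ∧ 2 ^ n • R = P ∧
        (z = X ∨ z = Y)})

end elliptic

/-- The condition on the branch points: for `i ≠ k` there are `l, l'` different from `i` and `k`, such
that the integer `(e_i - e_l) (e_i - e_l') (e_k - e_l) (e_k - e_l')` is not a square. -/
def CrossRatio {K : Type} (e : K → ℤ) : Prop :=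
  ∀ i k, i ≠ k → ∃ l l', l ≠ i ∧ l ≠ k ∧ l' ≠ i ∧ l' ≠ k ∧
    ¬ IsSquare ((e i - e l) * (e i - e l') * ((e k - e l) * (e k - e l')))

/-- The condition on four branch points: for the three partitions `{a, b}`, `{a', b'}` of the set
`{t, c_0, c_1, c_2}` the integer `(a - a') (a - b') (b - a') (b - b')` is not a square. -/
def NonSquares (t : ℤ) (c : Fin 3 → ℤ) : Prop :=
  ¬ IsSquare ((c 0 - c 1) * (c 0 - c 2) * ((t - c 1) * (t - c 2))) ∧
  ¬ IsSquare ((c 1 - c 0) * (c 1 - c 2) * ((t - c 0) * (t - c 2))) ∧
  ¬ IsSquare ((c 2 - c 0) * (c 2 - c 1) * ((t - c 0) * (t - c 1)))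

/-- The splitting `s` of `Gal(N/F) → Gal(L/k)` is attached to the branch point `P_i` and to no other
branch point modulo 2, and for all different branch points `e_t`, `e_(c 0)`, `e_(c 1)`, `e_(c 2)`, different
from `e_i`, which satisfy `NonSquares`, its image lies, on the field of the points of order `2^n` of
the elliptic curve `D w² = (x - e_t) (x - e_(c 0)) (x - e_(c 1)) (x - e_(c 2))`, in the decomposition group
of a prolongation to `N` of the valuation at `P_i`. -/
def HasPlaces {k F N L Ω K : Type} [Field k] [Field F] [Field N] [Field L] [Field Ω]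
    [Algebra k F] [Algebra F Ω] [Algebra k Ω] [Algebra k L] [Algebra F N] [Algebra L Ω]
    [Algebra N Ω] (e : K → ℤ) (x : F) (s : Splitting k F Ω L N) (n : ℕ) (i : K) : Prop :=
  (∀ j, AttachedModTwo (fun j => (e j : k)) x s j ↔ j = i) ∧
    ∀ (t : K) (c : Fin 3 → K), Function.Injective c → (∀ j, c j ≠ t) → i ≠ t → (∀ j, i ≠ c j) →
      NonSquares (e t) (fun j => e (c j)) →
      InDecompositionGroupOn s (DivisionField (e i : k) (e t : k) (fun j => (e (c j) : k))
        (algebraMap F N) x n) (x - algebraMap k F (e i : k))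

/-- Let `F = R(y) ⊆ Ω` be the function field of the curve `d y² = ∏ (x - e_i)` over `k`, where
`R = k(x)`.  For every set `U` of valuation rings of `F` over `k` and every section of `π₁(U) → G_k`
there is a branch point `P_i` with the property above. -/
def ValuativeOnDivisionFields (k : Type) {R : Type} (Ω : Type) [Field k] [Field R] [Field Ω]
    [Algebra k R] [Algebra R Ω] [Algebra k Ω] [IsScalarTower k R Ω] {K : Type} [Fintype K]
    (e : K → ℤ) (d : ℤ) (x : R) (n : ℕ) : Prop :=
  ∀ y : Ω, algebraMap k Ω (d : k) * y ^ 2 =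
      ∏ i, (algebraMap R Ω x - algebraMap k Ω (e i : k)) →
    ∀ U : Set (ValuationSubring (IntermediateField.adjoin R {y})),
      (∀ O ∈ U, ∀ c : k, algebraMap k (IntermediateField.adjoin R {y}) c ∈ O) →
      ∀ s : GaloisSection k (IntermediateField.adjoin R {y}) Ω U,
        ∃ i, HasPlaces e (algebraMap R (IntermediateField.adjoin R {y}) x) s n i

open Run7.h369.Par Run7.h369.AsmL Run7.h369.AsmC Run7.h369.Bc Run7.h369.Div Pool.Agent.TH954
  Pool.Agent.TH942

/-- membership in the decomposition group -/
lemma mem_dec {F N : Type} [Field F] [Field N] [Algebra F N] (W : ValuationSubring N)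
    (τ : N ≃ₐ[F] N) : τ ∈ W.decompositionSubgroup F ↔ ∀ z, τ z ∈ W ↔ z ∈ W := by
  unfold ValuationSubring.decompositionSubgroup
  rw [MulAction.mem_stabilizer_iff]
  constructor
  · intro h z
    have h1 : τ z ∈ τ • W ↔ z ∈ W := ValuationSubring.smul_mem_pointwise_smul_iff
    rw [h] at h1
    exact h1
  · intro h
    ext z
    rw [ValuationSubring.mem_pointwise_smul_iff_inv_smul_mem]
    have h1 : τ • (τ⁻¹ • z) = z := smul_inv_smul τ z
    have h2 := h (τ⁻¹ • z)
    change τ • (τ⁻¹ • z) ∈ W ↔ _ at h2
    rw [h1] at h2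
    exact h2.symm

open scoped Classical in
/-- the class in terms of the library on division points -/
lemma class_to {k N G : Type} [Field k] [CharZero k] [Field N] [Algebra k N] {u t : k}
    {c : Fin 3 → k} (h : Dis u t c) (s : G → N → N) (x : N) (n : ℕ)
    (hX : x ≠ algebraMap k N t)
    (hK : Pool.Agent.Results.MP_2f3286_ag.KummerClassesAtFiniteLevels.KummerClassOf u t c
      (algebraMap k N) s x n) :
    ∃ (w : N) (hw : Eqw u t c x w) (R : PM (aa u t c) (bb u t c) N), (∀ σ, s σ w = w) ∧
      (∀ σ X Y hXY, R = .some X Y hXY → s σ X = X ∧ s σ Y = Y) ∧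
      (2 ^ n • R = pt h _ w hX hw - qt h N ∨ 2 ^ n • R = pt h _ w hX hw + qt h N) := by
  obtain ⟨w, P, Q, R, h1, ⟨h2, h3⟩, ⟨h4, h5⟩, h6, h7⟩ := hK
  have key : ∀ W : WeierstrassCurve N, W = (sw (aa u t c) (bb u t c)).baseChange N →
      ∀ P Q R : W.toAffine.Point,
      (∃ h, P = .some (xp u t c x) (yp u t c x w) h) →
      (∃ h, Q = .some (xp u t c (algebraMap k N u)) (yp u t c (algebraMap k N u) 1) h) →
      (∀ σ X Y hXY, R = .some X Y hXY → s σ X = X ∧ s σ Y = Y) →
      (2 ^ n • R = P - Q ∨ 2 ^ n • R = P + Q) →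
      ∃ (w : N) (hw : Eqw u t c x w) (R : PM (aa u t c) (bb u t c) N), (∀ σ, s σ w = w) ∧
        (∀ σ X Y hXY, R = .some X Y hXY → s σ X = X ∧ s σ Y = Y) ∧
        (2 ^ n • R = pt h _ w hX hw - qt h N ∨ 2 ^ n • R = pt h _ w hX hw + qt h N) := by
    rintro _ rfl P Q R ⟨hP, rfl⟩ ⟨hQ, rfl⟩ hR h8
    exact ⟨w, h2, R, h1, hR, h8⟩
  refine key _ (base_eq _ _ N).symm P Q R h3 h5 ?_ h7
  rintro σ X Y hXY rfl
  exact h6 σ

open scoped Classical in
/-- the division points in terms of the library -/
lemma point_to {k N : Type} [Field k] [CharZero k] [Field N] [Algebra k N] {u t : k}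
    {c : Fin 3 → k} (h : Dis u t c) (x : N) (n : ℕ) (hX : x ≠ algebraMap k N t) (w X Y : N)
    (P R : (curveE u t c (algebraMap k N)).toAffine.Point)
    (hP : PointXW u t c (algebraMap k N) x w P) (hR : IsPt R X Y) (h2 : 2 ^ n • R = P) :
    ∃ (hw : Eqw u t c x w) (hXY : ((sw (aa u t c) (bb u t c)).baseChange N).toAffine.Nonsingular X Y),
      2 ^ n • (.some X Y hXY : PM (aa u t c) (bb u t c) N) = pt h _ w hX hw := by
  have key : ∀ W : WeierstrassCurve N, W = (sw (aa u t c) (bb u t c)).baseChange N →
      ∀ P R : W.toAffine.Point, (∃ h, P = .some (xp u t c x) (yp u t c x w) h) →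
      (∃ h, R = .some X Y h) → 2 ^ n • R = P →
      ∃ (hw : Eqw u t c x w)
        (hXY : ((sw (aa u t c) (bb u t c)).baseChange N).toAffine.Nonsingular X Y),
        2 ^ n • (.some X Y hXY : PM (aa u t c) (bb u t c) N) = pt h _ w hX hw := by
    rintro _ rfl P R ⟨hP', rfl⟩ ⟨hR', rfl⟩ h8
    exact ⟨hP.1, hR', h8⟩
  exact key _ (base_eq _ _ N).symm P R hP.2 hR h2

/-- the equation of a point -/
lemma eqn_pt {k N : Type} [Field k] [CharZero k] [Field N] [Algebra k N] {a b : k} {X Y : N}
    (h : ((sw a b).baseChange N).toAffine.Nonsingular X Y) :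
    Y ^ 2 = X ^ 3 + algebraMap k N a * X + algebraMap k N b := by
  have key : ∀ W : WeierstrassCurve N, W = Pool.Agent.H901R3.MS.CV (algebraMap k N a)
      (algebraMap k N b) → W.toAffine.Nonsingular X Y →
      Y ^ 2 = X ^ 3 + algebraMap k N a * X + algebraMap k N b := by
    rintro _ rfl h
    exact Pool.Agent.H901R3.MS.eqn_of h
  exact key _ (base_eq a b N) h

/-- there are automorphisms which stabilise a given place and act as `σ` on the constants -/
def Twist {k F Ω : Type} [Field k] [Field F] [Field Ω] [Algebra k F] [Algebra F Ω] [Algebra k Ω]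
    (N : IntermediateField F Ω) (x : F) (u : k) : Prop :=
  ∀ (σ : algebraicClosure k Ω ≃ₐ[k] algebraicClosure k Ω) (s : N ≃ₐ[F] N),
    (∀ (c : algebraicClosure k Ω) (z : N), (z : Ω) = (c : Ω) → (s z : Ω) = (σ c : Ω)) →
    ∀ W0 : ValuationSubring Ω, (∀ c : k, algebraMap k Ω c ∈ W0) →
    algebraMap F Ω x - algebraMap k Ω u ∈ W0.nonunits →
    ∃ t : Ω ≃ₐ[F] Ω, (∀ z, t z ∈ W0 ↔ z ∈ W0) ∧ ∀ c : algebraicClosure k Ω,
      t (c : Ω) = (σ c : Ω)

open Pool.Agent.Y157.PS in
/-- one section, one elliptic curve -/
theorem step {k : Type} [Field k] [CharZero k] {K : Type} [Fintype K] [DecidableEq K] (e : K → ℤ) (he : Function.Injective e)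
    (d : ℤ) (hd : d ≠ 0)
    {F Ω : Type} [Field F] [Field Ω] [Algebra k F] [Algebra F Ω] [Algebra k Ω]
    [IsScalarTower k F Ω] [IsAlgClosed Ω] [Algebra.IsAlgebraic F Ω] (x y : F)
    (hx : Transcendental k x)
    (hxy : algebraMap k F (d : k) * y ^ 2 = ∏ i, (x - algebraMap k F (e i : k)))
    (hF : IntermediateField.adjoin k {x, y} = (⊤ : IntermediateField k F)) (i : K)
    (N : IntermediateField F Ω) (hnorm : Normal F N) (hT : Twist N x (e i : k))
    (hcon : ∀ a : algebraicClosure k Ω, (a : Ω) ∈ N)
    (s : (algebraicClosure k Ω ≃ₐ[k] algebraicClosure k Ω) →* (N ≃ₐ[F] N))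
    (hs : ∀ σ (c : algebraicClosure k Ω) (z : N), (z : Ω) = (c : Ω) → (s σ z : Ω) = (σ c : Ω))
    {t : k} {c : Fin 3 → k} (h : Dis (e i : k) t c) (n : ℕ)
    (hK : Pool.Agent.Results.MP_2f3286_ag.KummerClassesAtFiniteLevels.KummerClassOf (e i : k) t c
      ((algebraMap F N).comp (algebraMap k F)) (fun σ z => s σ z) (algebraMap F N x) n) :
    ∃ W : ValuationSubring N, ZeroAt k W (x - algebraMap k F (e i : k)) ∧
      ∀ σ, ∃ τ ∈ W.decompositionSubgroup F,
        (∀ (c : algebraicClosure k Ω) (z : N), (z : Ω) = (c : Ω) → (τ z : Ω) = (σ c : Ω)) ∧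
        ∀ z ∈ DivisionField (e i : k) t c (algebraMap F N) x n, s σ z = τ z := by
  have hcN : CharZero N := charZero_of_injective_algebraMap (algebraMap k N).injective
  have hac : IsAlgClosure k (algebraicClosure k Ω) := inferInstance
  have hkb : IsAlgClosed (algebraicClosure k Ω) := hac.1
  have hka : Algebra.IsAlgebraic k (algebraicClosure k Ω) := hac.2
  have hkF : ∀ a : k, algebraMap k N a = algebraMap F N (algebraMap k F a) := fun a =>
    IsScalarTower.algebraMap_apply k F N a
  have e1 : (algebraMap F N).comp (algebraMap k F) = algebraMap k N :=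
    (IsScalarTower.algebraMap_eq k F N).symm
  let eN : N →ₐ[k] Ω := N.val.restrictScalars k
  let j : algebraicClosure k Ω →ₐ[k] N :=
    { toFun := fun a => ⟨(a : Ω), hcon a⟩
      map_one' := rfl
      map_mul' := fun _ _ => rfl
      map_zero' := rfl
      map_add' := fun _ _ => rfl
      commutes' := fun _ => rfl }
  have hxN : Transcendental k (algebraMap F N x) :=
    (transcendental_algebraMap_iff (R := k) (algebraMap F N).injective (a := x)).2 hx
  have hX : algebraMap F N x ≠ algebraMap k N t := by
    intro h1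
    apply hxN
    rw [h1]
    exact isAlgebraic_algebraMap t
  rw [e1] at hK
  obtain ⟨w, hw, R, hfix, hfixR, h2⟩ := class_to h _ _ n hX hK
  -- algebraic elements
  have halgN : ∀ z : N, IsAlgebraic k z → ∃ a, j a = z := by
    intro z hz
    have h1 : IsAlgebraic k (eN z) := hz.algHom eN
    exact ⟨⟨(z : Ω), mem_algebraicClosure_iff.2 h1⟩, rfl⟩
  rcases R with _ | ⟨XR, YR, hR⟩
  · exact absurd (not_const h j hxN hX hw n _ h2 ⟨0, map_zero _⟩) id
  have hXRt : Transcendental k XR := by
    intro halg
    have hY : IsAlgebraic k YR := by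
      refine IsAlgebraic.of_pow (n := 2) (by norm_num) ?_
      rw [eqn_pt hR]
      exact ((halg.pow 3).add ((isAlgebraic_algebraMap _).mul halg)).add (isAlgebraic_algebraMap _)
    refine not_const h j hxN hX hw n _ h2 (pt_lift j _ ?_)
    intro X' Y' h' heq
    rw [WeierstrassCurve.Affine.Point.some.injEq] at heq
    rw [← heq.1, ← heq.2]
    exact ⟨halgN _ halg, halgN _ hY⟩
  have hXR0 : (XR : Ω) ≠ 0 := by
    intro h0
    apply hXRt
    have h1 : XR = 0 := Subtype.ext h0
    rw [h1]
    exact isAlgebraic_zero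
  have hinv : Transcendental k ((XR : Ω)⁻¹) := by
    intro halg
    apply hXRt
    have h1 : IsAlgebraic k (XR : Ω) := by
      have h2 := halg.inv
      rwa [inv_inv] at h2
    exact (isAlgebraic_algHom_iff eN eN.injective).1 h1
  obtain ⟨W0, hW0q, hW0x⟩ := Pool.Agent.W623.SecG.exists_place ((XR : Ω)⁻¹) hinv (0 : k)
  rw [map_zero, sub_zero] at hW0x
  have hXRW0 : (XR : Ω) ∉ W0 := by
    rw [nonunits_iff] at hW0x
    rcases hW0x.2 with h1 | h1
    · exact absurd h1 (inv_ne_zero hXR0)
    · rwa [inv_inv] at h1
  set W : ValuationSubring N := W0.comap (algebraMap N Ω) with hWdef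
  have hXRW : XR ∉ W := hXRW0
  have hWk : ∀ a : k, algebraMap k N a ∈ W := by
    intro a
    rw [hWdef, ValuationSubring.mem_comap]
    exact hW0q a
  have hXu := reduces h W hWk hX hw (2 ^ n) hR hXRW h2
  have hWt : algebraMap F N (x - algebraMap k F (e i : k)) ∈ W.nonunits := by
    rw [map_sub, ← hkF]
    exact hXu
  have hWπ : algebraMap F Ω x - algebraMap k Ω (e i : k) ∈ W0.nonunits := by
    have h1 := (Pool.Agent.Y780.PC.non_comap _ _ _).1 hXu
    rw [map_sub] at h1
    exact h1
  have hWk' : ∀ a : k, algebraMap F N (algebraMap k F a) ∈ W := by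
    intro a
    rw [← hkF]
    exact hWk a
  have hek : Function.Injective (fun j => (e j : k)) := by
    intro a b hab
    apply he
    have h1 : (e a : k) = (e b : k) := hab
    exact_mod_cast h1
  refine ⟨W, ⟨hWk', hWt, fun z hz => Pool.Agent.Run7.h369.V5.residue (fun j => (e j : k)) hek
    (d : k) (by exact_mod_cast hd) x y hx hxy hF i W hWk' hWt z hz⟩, fun σ => ?_⟩
  obtain ⟨T, hT1, hT2⟩ := hT σ (s σ) (hs σ) W0 hW0q hWπ
  have hres : ∀ z : N, algebraMap N Ω (T.restrictNormal N z) = T (algebraMap N Ω z) := fun z =>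
    AlgEquiv.restrictNormal_commutes T N z
  have hst : ∀ z, T.restrictNormal N z ∈ W ↔ z ∈ W := by
    intro z
    rw [hWdef, ValuationSubring.mem_comap, ValuationSubring.mem_comap, hres]
    exact hT1 _
  have hτc : ∀ (c : algebraicClosure k Ω) (z : N), (z : Ω) = (c : Ω) →
      (T.restrictNormal N z : Ω) = (σ c : Ω) := by
    intro c z hz
    have h3 := hres z
    change ((T.restrictNormal N z : N) : Ω) = T (z : Ω) at h3
    rw [h3, hz]
    exact hT2 c
  refine ⟨T.restrictNormal N, (mem_dec W _).2 hst, hτc, ?_⟩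
  have hτw : T.restrictNormal N w = w := w_fixed h N (T.restrictNormal N) W ⊤
    (fun z _ => hst z) hWk hXu trivial hw
  -- the subfield on which they agree
  have hle : DivisionField (e i : k) t c (algebraMap F N) x n ≤
      ((s σ : N ≃ₐ[F] N) : N →+* N).eqLocusField ((T.restrictNormal N : N ≃ₐ[F] N) : N →+* N) := by
    unfold DivisionField
    rw [Subfield.closure_le]
    rintro a ((ha | ha) | ha)
    · obtain ⟨b, rfl⟩ := ha
      change s σ (algebraMap F N b) = T.restrictNormal N (algebraMap F N b)
      rw [(s σ).commutes, (T.restrictNormal N).commutes]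
    · obtain ⟨p, hp0, hp⟩ := ha
      have h3 : IsAlgebraic k a := ⟨p, hp0, by
        rw [e1] at hp
        exact hp⟩
      obtain ⟨b, rfl⟩ := halgN a h3
      change s σ (j b) = T.restrictNormal N (j b)
      apply Subtype.ext
      rw [hs σ b (j b) rfl, hτc b (j b) rfl]
    · rw [e1] at ha
      obtain ⟨w', X', Y', P, R', hP, hR', h5, h6⟩ := ha
      obtain ⟨hw', hXY, h7⟩ := point_to h _ n hX w' X' Y' P R' hP hR' h5
      have h8 := same_act h eN j W hWk hX hw n hR hXRW h2
        (σ : algebraicClosure k Ω →ₐ[k] algebraicClosure k Ω)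
        ((s σ : N →ₐ[F] N).restrictScalars k)
        ((T.restrictNormal N : N →ₐ[F] N).restrictScalars k)
        (fun a => Subtype.ext (hs σ a (j a) rfl)) (fun a => Subtype.ext (hτc a (j a) rfl))
        ((s σ).commutes x) ((T.restrictNormal N).commutes x) (hfix σ) hτw
        (hfixR σ XR YR hR rfl) hst w' hw' _ h7
      obtain ⟨g1, g1'⟩ := pm_some (E := sw (aa (e i : k) t c) (bb (e i : k) t c))
        ((s σ : N →ₐ[F] N).restrictScalars k) hXY
      obtain ⟨g2, g2'⟩ := pm_some (E := sw (aa (e i : k) t c) (bb (e i : k) t c))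
        ((T.restrictNormal N : N →ₐ[F] N).restrictScalars k) hXY
      rw [g1', g2', WeierstrassCurve.Affine.Point.some.injEq] at h8
      rcases h6 with rfl | rfl
      · exact h8.1
      · exact h8.2
  exact fun z hz => hle hz

open Pool.Agent.Y157.PS in
/-- all sections for one `d`, over a general field -/
theorem of_kummer' {k : Type} [Field k] [CharZero k] {K : Type} [Fintype K] [DecidableEq K]
    (e : K → ℤ) (he : Function.Injective e) (d : ℤ) (hd : d ≠ 0)
    {R Ω : Type} [Field R] [Field Ω] [Algebra k R] [Algebra R Ω] [Algebra k Ω]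
    [IsScalarTower k R Ω] [IsAlgClosure R Ω] (x : R) (hx : Transcendental k x)
    (hR : IntermediateField.adjoin k {x} = (⊤ : IntermediateField k R)) (n : ℕ)
    (hK : Pool.Agent.Results.MP_2f3286_ag.KummerClassesAtFiniteLevels.SectionsHaveKummerClasses
      k Ω e d x n)
    (htwist : ∀ (F : Type) [Field F] [Algebra k F] [Algebra F Ω] [IsScalarTower k F Ω]
      [IsAlgClosed Ω] [Algebra.IsAlgebraic F Ω] (xF yF : F), Transcendental k xF →
      algebraMap k F (d : k) * yF ^ 2 = ∏ i, (xF - algebraMap k F (e i : k)) →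
      IntermediateField.adjoin k {xF, yF} = (⊤ : IntermediateField k F) → ∀ i : K,
      ∀ N : IntermediateField F Ω, Normal F N → (∀ c : algebraicClosure k Ω, (c : Ω) ∈ N) →
      Twist N xF (e i : k)) : ValuativeOnDivisionFields k Ω e d x n := by
  intro y hy U hU s
  have hcl : IsAlgClosed Ω := IsAlgClosure.isAlgClosed R
  have halgR : Algebra.IsAlgebraic R Ω := IsAlgClosure.isAlgebraic
  have halg : Algebra.IsAlgebraic (IntermediateField.adjoin R {y}) Ω :=
    Algebra.IsAlgebraic.tower_top (K := R) (IntermediateField.adjoin R {y})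
  have htw : IsScalarTower k (IntermediateField.adjoin R {y}) Ω :=
    IsScalarTower.of_algebraMap_eq fun _ => rfl
  have hdk : (d : k) ≠ 0 := by exact_mod_cast hd
  have hF := Pool.Agent.Results.MP_c1dca2_ag.SectionsAtFiniteLevels.adjoin_top (k := k) x hR y
  have hx' : Transcendental k (algebraMap R (IntermediateField.adjoin R {y}) x) :=
    (transcendental_algebraMap_iff (R := k)
      (algebraMap R (IntermediateField.adjoin R {y})).injective (a := x)).2 hx
  obtain ⟨yF, hyF⟩ : ∃ yF : IntermediateField.adjoin R {y},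
      yF = ⟨y, IntermediateField.mem_adjoin_simple_self R y⟩ := ⟨_, rfl⟩
  have hxy : algebraMap k (IntermediateField.adjoin R {y}) (d : k) * yF ^ 2 =
      ∏ i, (algebraMap R (IntermediateField.adjoin R {y}) x -
        algebraMap k (IntermediateField.adjoin R {y}) (e i : k)) := by
    apply (algebraMap (IntermediateField.adjoin R {y}) Ω).injective
    rw [map_mul, map_pow, map_prod,
      ← IsScalarTower.algebraMap_apply k (IntermediateField.adjoin R {y}) Ω, hyF]
    refine hy.trans (Finset.prod_congr rfl fun j _ => ?_)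
    rw [map_sub, ← IsScalarTower.algebraMap_apply k (IntermediateField.adjoin R {y}) Ω,
      ← IsScalarTower.algebraMap_apply R (IntermediateField.adjoin R {y}) Ω]
  rw [← hyF] at hF
  have hxyf : algebraMap k (IntermediateField.adjoin R {y}) (d : k) * yF ^ 2 =
      aeval (algebraMap R (IntermediateField.adjoin R {y}) x) (∏ i, (X - C (e i : k))) := by
    rw [hxy, map_prod]
    refine Finset.prod_congr rfl fun j _ => ?_
    rw [map_sub, aeval_X, aeval_C]
  have halg2 : Algebra.IsAlgebraic (IntermediateField.adjoin k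
      {algebraMap R (IntermediateField.adjoin R {y}) x}) (IntermediateField.adjoin R {y}) :=
    alg_of_eqn (by norm_num : 0 < 2) (∏ j, (X - C (e j : k))) (d : k) hdk _ yF hxyf hF
  have hle : geomPro 2 k (IntermediateField.adjoin R {y}) Ω ≤
      unramified (IntermediateField.adjoin R {y}) Ω U := (a_ind 2 k _ Ω _ hx' halg2 U hU).1
  have hcon : ∀ a : algebraicClosure k Ω,
      (a : Ω) ∈ unramified (IntermediateField.adjoin R {y}) Ω U := fun a =>
    hle (const_geomPro 2 k a)
  have hnorm : Normal (IntermediateField.adjoin R {y})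
      (unramified (IntermediateField.adjoin R {y}) Ω U) := Pool.Agent.Y157.PC.unr_normal U
  have hek : Function.Injective (fun j => (e j : k)) := by
    intro a b hab
    apply he
    have h1 : (e a : k) = (e b : k) := hab
    exact_mod_cast h1
  obtain ⟨i, hi, hT⟩ := hK y hy U hU ⟨s.toHom, s.cont, s.compat⟩
  refine ⟨i, fun j => ⟨fun hj => ?_, fun hj => ?_⟩, fun t c hc1 hc2 hc3 hc4 hc5 => ?_⟩
  · obtain ⟨W, ⟨hW1, hW2, -⟩, hW3⟩ := hj
    exact (hi j).1 ⟨W, ⟨hW1, hW2⟩, hW3⟩
  · obtain ⟨W, ⟨hW1, hW2⟩, hW3⟩ := (hi j).2 hj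
    exact ⟨W, ⟨hW1, hW2, fun z hz => Pool.Agent.Run7.h369.V5.residue (fun j => (e j : k)) hek
      (d : k) hdk _ yF hx' hxy hF j W hW1 hW2 z hz⟩, hW3⟩
  · have hdis : Dis (e i : k) (e t : k) (fun j => (e (c j) : k)) :=
      ⟨fun a b hab => hc1 (hek hab), fun a ha => hc2 a (hek ha), fun ha => hc3 (hek ha),
        fun a ha => hc4 a (hek ha)⟩
    exact step e he d hd _ yF hx' hxy hF i (unramified (IntermediateField.adjoin R {y}) Ω U) hnorm
      (htwist _ _ yF hx' hxy hF i _ hnorm hcon) hcon s.toHom
      (fun σ c z hz => s.compat σ c z hz) hdis n (hT t c hc1 hc2 hc3 hc4 hc5)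

lemma twist_q {K : Type} [Fintype K] [DecidableEq K] (e : K → ℤ) (he : Function.Injective e)
    (hev : Even (Fintype.card K)) (h4 : 4 ≤ Fintype.card K) (d : ℤ) (hd : d ≠ 0)
    {F Ω : Type} [Field F] [Field Ω] [Algebra ℚ F] [Algebra F Ω] [Algebra ℚ Ω]
    [IsScalarTower ℚ F Ω] [IsAlgClosed Ω] [Algebra.IsAlgebraic F Ω] (x y : F)
    (hx : Transcendental ℚ x)
    (hxy : algebraMap ℚ F (d : ℚ) * y ^ 2 = ∏ i, (x - algebraMap ℚ F (e i : ℚ)))
    (hF : IntermediateField.adjoin ℚ {x, y} = (⊤ : IntermediateField ℚ F)) (i : K)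
    (N : IntermediateField F Ω) (hN : Normal F N)
    (hκN : ∀ c : algebraicClosure ℚ Ω, (c : Ω) ∈ N)
    (a : Algebra ℚ (algebraicClosure ℚ Ω))
    (σ : algebraicClosure ℚ Ω ≃ₐ[ℚ] algebraicClosure ℚ Ω) (s : N ≃ₐ[F] N)
    (hs : ∀ (c : algebraicClosure ℚ Ω) (z : N), (z : Ω) = (c : Ω) → (s z : Ω) = (σ c : Ω))
    (W0 : ValuationSubring Ω) (hWq : ∀ c : ℚ, algebraMap ℚ Ω c ∈ W0)
    (hWπ : algebraMap F Ω x - algebraMap ℚ Ω (e i : ℚ) ∈ W0.nonunits) :
    ∃ t : Ω ≃ₐ[F] Ω, (∀ z, t z ∈ W0 ↔ z ∈ W0) ∧ ∀ c : algebraicClosure ℚ Ω,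
      t (c : Ω) = (σ c : Ω) := by
  obtain rfl : a = DivisionRing.toRatAlgebra := Subsingleton.elim _ _
  exact Pool.Agent.Run7.h369.D3.twist_stable e he hev h4 d hd x y hx hxy hF i N hN hκN σ s hs W0
    hWq hWπ

open Pool.Agent.Y157.PS in
/-- all sections for one `d` -/
theorem of_kummer {K : Type} [Fintype K] [DecidableEq K] (e : K → ℤ) (he : Function.Injective e)
    (hev : Even (Fintype.card K)) (h4 : 4 ≤ Fintype.card K) (d : ℤ) (hd : d ≠ 0)
    {R Ω : Type} [Field R] [Field Ω] [Algebra ℚ R] [Algebra R Ω] [Algebra ℚ Ω]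
    [IsScalarTower ℚ R Ω] [IsAlgClosure R Ω] (x : R) (hx : Transcendental ℚ x)
    (hR : IntermediateField.adjoin ℚ {x} = (⊤ : IntermediateField ℚ R)) (n : ℕ)
    (hK : Pool.Agent.Results.MP_2f3286_ag.KummerClassesAtFiniteLevels.SectionsHaveKummerClasses
      ℚ Ω e d x n) : ValuativeOnDivisionFields ℚ Ω e d x n := by
  refine of_kummer' (k := ℚ) e he d hd x hx hR n hK ?_
  intro F _ _ _ _ _ _ xF yF h1 h2 h3 i N hN hc σ s hs W0 hW1 hW2
  exact twist_q e he hev h4 d hd xF yF h1 h2 h3 i N hN hc _ σ s hs W0 hW1 hW2

/-- (1) Let `e_k` be `N` different integers, where `N ≥ 6` is even, that satisfy the condition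
`CrossRatio`, let `Ω` be an algebraic closure of `R = ℚ(x)` and let `n` be a natural number.  Then for all
squarefree `d`, `|d| ≤ X`, with at most `C X (log X)^(-δ)` exceptions, the following is true: every
section `s` of the fundamental group of the curve `d y² = ∏ (x - e_k)`, or of an open subcurve, is
attached modulo 2 to exactly one of the rational points `(e_k, 0)`, say `(e_i, 0)`, and for all sets
`{e_t, e_(c 0), e_(c 1), e_(c 2)}` of four branch points, different from `e_i`, which satisfy
`NonSquares`, on the field of the points of order `2^n` of the elliptic curve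
`D w² = (x - e_t) (x - e_(c 0)) (x - e_(c 1)) (x - e_(c 2))` the image of `s` lies in the decomposition
group of a prolongation of the valuation at `(e_i, 0)`.  (2) The integers `0, 1, 2, 4, 7, 13` satisfy the
condition `CrossRatio`, and all sets of four of them satisfy `NonSquares`. -/
theorem result :
    (∀ (K : Type) [Fintype K] (e : K → ℤ), Function.Injective e → Even (Fintype.card K) →
      6 ≤ Fintype.card K → CrossRatio e →
      ∀ (R Ω : Type) [Field R] [Field Ω] [Algebra ℚ R] [Algebra R Ω] [Algebra ℚ Ω]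
      [IsScalarTower ℚ R Ω] [IsAlgClosure R Ω] (x : R), Transcendental ℚ x →
      IntermediateField.adjoin ℚ {x} = (⊤ : IntermediateField ℚ R) → ∀ n : ℕ,
      ∃ δ C : ℝ, 0 < δ ∧ ∀ X : ℕ, 2 ≤ X →
        ({d : ℤ | d.natAbs ≤ X ∧ Squarefree d ∧
          ¬ ValuativeOnDivisionFields ℚ Ω e d x n}.ncard : ℝ) ≤
          C * X * (Real.log X) ^ (-δ)) ∧
    (CrossRatio (![0, 1, 2, 4, 7, 13] : Fin 6 → ℤ) ∧
      ∀ (t : Fin 6) (c : Fin 3 → Fin 6), Function.Injective c → (∀ j, c j ≠ t) →
        NonSquares ((![0, 1, 2, 4, 7, 13] : Fin 6 → ℤ) t)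
          (fun j => (![0, 1, 2, 4, 7, 13] : Fin 6 → ℤ) (c j))) := by
  refine ⟨?_, Pool.Agent.Results.MP_2f3286_ag.KummerClassesAtFiniteLevels.result.2⟩
  intro K _ e he hev hK hCR R Ω _ _ _ _ _ _ _ x hx hR n
  classical
  obtain ⟨δ, C, hδ, hC⟩ :=
    Pool.Agent.Results.MP_2f3286_ag.KummerClassesAtFiniteLevels.result.1 K e he hev hK hCR R Ω x
      hx hR n
  refine ⟨δ, C, hδ, fun X hX => le_trans ?_ (hC X hX)⟩
  have hfin : {d : ℤ | d.natAbs ≤ X ∧ Squarefree d ∧
      ¬ Pool.Agent.Results.MP_2f3286_ag.KummerClassesAtFiniteLevels.SectionsHaveKummerClasses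
        ℚ Ω e d x n}.Finite := by
    refine (Finset.finite_toSet (Finset.Icc (-(X : ℤ)) X)).subset ?_
    rintro d ⟨hd1, -⟩
    rw [Finset.mem_coe, Finset.mem_Icc]
    omega
  have hsub : {d : ℤ | d.natAbs ≤ X ∧ Squarefree d ∧ ¬ ValuativeOnDivisionFields ℚ Ω e d x n} ⊆
      {d : ℤ | d.natAbs ≤ X ∧ Squarefree d ∧
      ¬ Pool.Agent.Results.MP_2f3286_ag.KummerClassesAtFiniteLevels.SectionsHaveKummerClasses
        ℚ Ω e d x n} := by
    rintro d ⟨hd1, hd2, hd3⟩
    exact ⟨hd1, hd2, fun h => hd3 (of_kummer e he hev (by omega) d hd2.ne_zero x hx hR n h)⟩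
  exact_mod_cast Set.ncard_le_ncard hsub hfin

end Pool.Agent.Results.MP_896029_ag.ValuativeDivisionFields
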