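import Pool.Agent.Run7.h369.V5.PerMV
import Pool.Agent.Run7.h369.V5.Res
import Pool.Agent.Run7.h369.D3.Root
import Pool.Agent.Run7.h369.D3.Cnt
import Pool.Agent.Run7.h369.D3.Ex
import Pool.Agent.Y157.PS.TwQ
import Pool.Agent.Y157.PC.Unr
import Pool.Agent.W623.SecG.Loc2
import Pool.Agent.Y547.PCQ.Acq

/-!
# The valuative form of the section conjecture on the third level, for 100% of the twists

Let `N ≥ 6` be even and let `e_1, …, e_N` be different integers which satisfy the condition `FourCycles`
below, for instance `0, 1, 2, 3, 4, 5`.  For squarefree `d` let `C_d` be the curve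
`d y² = ∏ (x - e_k)`, of genus `N/2 - 1 ≥ 2`, with function field `F = ℚ(x, y)` and with the rational
points `P_k = (e_k, 0)`.  Let `F_U` be the maximal extension of `F` unramified over `U`, where `U` is
`C_d` or an open subcurve, so that `π₁(U) = Gal(F_U/F)`; for `U = C_d` this is the function field of
the universal pro-étale cover.  For a branch point `P_i` let `M₃ ⊆ F_U` be generated over `F` by the
algebraic numbers, by the square roots

  `z`,  `z² = (x - e_l) / ((x - e_i) (e_i - e_l))`,  `l ≠ i`,

and by the square roots of all products `(z₁ - z₂) (z₃ - z₄)`, where `z₁, z₂, z₃, z₄` are such roots for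
`l₁, l₂, l₃, l₄ ≠ i` and `l₁ ≠ l₂`, `l₃ ≠ l₄`.

**Theorem.**  There are `δ > 0` and `C` such that for all squarefree `d`, `|d| ≤ X`, with at most
`C X (log X)^(-δ)` exceptions, the following is true for every section `s : G_ℚ → π₁(U)`.  There is
exactly one index `i` with the following property: there is a prolongation `W` to `F_U` of the
valuation of `F` at `P_i`, a valuation with residue field `ℚ`, such that for every `σ ∈ G_ℚ` there is an
element `τ` over `σ` of the decomposition group `D_W ⊆ Gal(F_U/F)` with `s(σ) = τ` on `M₃`.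

So for these curves every section is contained in a decomposition group `D_W`, after
restriction to the field `M₃`, for one valuation `w` with residue field `ℚ` and one prolongation of it
to the universal cover, and this `w` is unique.  As `D_W → G_ℚ` is bijective for `U = C_d`, and `τ` is
the value at `σ` of the section given by `W`, the section `s` is on `M₃` the section of the rational
point `P_i`.  The sections are arbitrary; it is not assumed that they are locally geometric.

The group `Gal(ℚ̄ M₃/ℚ̄ F)` is a group of nilpotency class 2, a quotient of the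
geometric fundamental group `π` of `C_d` modulo the third step of its lower 2-central series.  (This
remark is not used.)

In `MP_2f3286_ag.SectionsModuloThirdLevel` the theorem was proved in the form that all `s(σ)` map the
ring `W ∩ M₃` onto itself.

The fundamental group is described through valuations.  Let `U` be a smooth geometrically connected
curve over `k` with function field `F`, let `Ω` be an algebraic closure of `F`, and let `F_U` be the
maximal extension of `F` inside `Ω` which is unramified over the closed points of `U`, that is, over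
their local rings, which are valuation rings of `F`.  Then `π₁(U) = Gal(F_U/F)`, and the map
`π₁(U) → G_k` is the restriction of automorphisms to the algebraic closure of `k` in `Ω`.

Proof.  Let `s` be a section for `d` which is attached to `P_i` modulo 2; this is true for all sections
and some `i`, for almost all `d` (part G3 of helper262, parts SecC, SecE, SecG of helper623).
(1) There are square roots `z_l` of the functions `(x - e_l)/(d g (x - e_i)(e_i - e_l))`,
`g = ∏ (e_i - e_l)`, which are fixed by `s`.  We have `(z_j - z_k) (z_j + z_k) ∈ ℚ`, so `z_j - z_k` has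
order 0 at the places which are not above `P_i`, and order `±1` at the places above `P_i`.  So for every
set `w` of pairs with an even number of elements the product `f_w` of the functions `z_j - z_k` has a
square root in the maximal unramified pro-2 extension of `ℚ̄ F`.  By Hilbert 90 there are squarefree
integers `λ_w` and elements `v_w` fixed by `s` with `λ_w v_w² = f_w`.  (2) Let `p` be a prime that does
not divide `2 d ∏ (e_j - e_k)`.  The section acts trivially on the inertia group at `p`, in the residue
field of the Gauss valuation (part GRED of helper968), and `f_w` is a unit there; so `p` does not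
divide `λ_w`.  (3) Let `p ∣ d` be a prime that does not divide `2 ∏ (e_j - e_k)`.  By the local
theorem (`MP_2f3286_ag.OnePointLocally`) the image of the decomposition group of `p` fixes a place
above `P_i`.  At this place the `z_j` are equal up to signs; these signs, up to a common one, are the
type of `p`.  The leading term of `f_w` is, up to squares, `c_w d^(a_w)`, where the integer `c_w` and
the parity `a_w` depend only on the type, and so `λ_w c_w d^(a_w)` is a square in `ℚ_p`.  (4) For
different types there is `w` with different parities `a_w`.  There is also `w` (a cycle of length 4)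
such that `a_w = 0` for all types, and such that the product of the two `c_w` is no square; this is
the condition `FourCycles`.  From this one can deduce by the bilinear sieve (theorem ACT of helper831,
after the counting theorems of helper262, helper460, helper554 and helper762) that for almost all `d`
the `λ_w` are the ones of one type, `λ_w c_w d^(a_w)` is a square in `ℚ`.  (5) Let `W` be the place
fixed by the decomposition group of one prime `p ∣ d`.  For every `σ ∈ G_ℚ` there is an automorphism
`t` of `Ω` over `F` which acts as `σ` on the constants and fixes `W`.  Since the values of `z_j/z_k`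
and, by (4), the ones of `v_w` divided by the leading term are rational, `t` fixes `z_j` and `v_w`.  So
`t = s(σ)` on `M₃`, and `τ` is the restriction of `t` to `F_U`.
-/

open Polynomial
open scoped Pointwise

namespace Pool.Agent.Results.MP_896029_ag.ValuativeThirdLevel

section definitions

variable (k F Ω : Type) [Field k] [Field F] [Field Ω] [Algebra k F] [Algebra F Ω]
  [Algebra k Ω]

/-- The inertia group of the valuation ring `W` of `Ω`, as a subgroup of `Gal(Ω/F)`: the
automorphisms of `Ω` over `F` that map `W` onto itself and act as the identity on its residue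
field. -/
noncomputable def inertia (W : ValuationSubring Ω) : Subgroup (Ω ≃ₐ[F] Ω) :=
  (W.inertiaSubgroup F).map (W.decompositionSubgroup F).subtype

/-- `F_U`, for a set `U` of valuation rings of `F`: the elements of `Ω` fixed by the inertia groups
of all valuation rings `W` of `Ω` with `W ∩ F ∈ U`.  If `Ω` is an algebraic closure of a field `F`
of characteristic zero, this is the maximal extension of `F` in `Ω` unramified over `U`. -/
noncomputable def unramified (U : Set (ValuationSubring F)) : IntermediateField F Ω :=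
  ⨅ W : {W : ValuationSubring Ω // W.comap (algebraMap F Ω) ∈ U},
    IntermediateField.fixedField (inertia F Ω W.1)

/-- The map `τ : M → M` acts as `σ : K → K` on the elements that the fields `K` and `M` have in
common when they are regarded as subfields of `Ω` through `i` and `j`. -/
def ActsAs {K M Ω : Type} [Field K] [Field M] [Field Ω] (i : K →+* Ω) (j : M →+* Ω) (σ : K → K)
    (τ : M → M) : Prop :=
  ∀ c z, j z = i c → j (τ z) = i (σ c)

/-- Let `k ⊆ K ⊆ Ω` and `F ⊆ N ⊆ Ω` be fields.  A splitting of `Gal(N/F) → Gal(K/k)`: a continuous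
homomorphism `s` from `Gal(K/k)` to `Gal(N/F)` such that `s(σ)` acts as `σ` on the elements of
`K ∩ N`. -/
structure Splitting (K N : Type) [Field K] [Field N] [Algebra k K] [Algebra F N] [Algebra K Ω]
    [Algebra N Ω] where
  /-- the homomorphism `Gal(K/k) → Gal(N/F)` -/
  toHom : (K ≃ₐ[k] K) →* (N ≃ₐ[F] N)
  cont : Continuous toHom
  compat : ∀ σ : K ≃ₐ[k] K, ActsAs (algebraMap K Ω) (algebraMap N Ω) σ (toHom σ)

/-- The sections of `π₁(U) = Gal(F_U/F) → G_k`: the continuous homomorphisms `s` from
`G_k = Gal(k̄/k)` to `Gal(F_U/F)`, where `k̄` is the algebraic closure of `k` in `Ω`, such that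
`s(σ)` acts as `σ` on the elements of `k̄`. -/
abbrev GaloisSection (U : Set (ValuationSubring F)) : Type :=
  Splitting k F Ω (algebraicClosure k Ω) (unramified F Ω U)

end definitions

section levels

variable {k F N K : Type} [Field k] [Field F] [Field N] [Algebra k F]

/-- `z` is algebraic over `k`, where `k` is mapped to `M` by `i`. -/
def AlgOver {k M : Type} [Field k] [Field M] (i : k →+* M) (z : M) : Prop :=
  ∃ p : k[X], p ≠ 0 ∧ p.eval₂ i z = 0

/-- (Used only in the proof.)  The subfield `M₂` of the extension `N` of `F`, generated over `F` by all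
elements of `N` that are algebraic over `k`, and by all square roots in `N` of the functions
`(x - e_i)/(x - e_j)`. -/
def M₂ (j : F →+* N) (e : K → k) (x : F) : Subfield N :=
  Subfield.closure (Set.range j ∪ {z | AlgOver (j.comp (algebraMap k F)) z} ∪
    {z | ∃ i i', z ^ 2 * j (x - algebraMap k F (e i')) = j (x - algebraMap k F (e i))})

/-- The square roots in `N` of the function `(x - e_l) / ((x - e_i) (e_i - e_l))`. -/
def Roots (j : F →+* N) (e : K → k) (x : F) (i l : K) : Set N :=
  {z | z ^ 2 * j ((x - algebraMap k F (e i)) * algebraMap k F (e i - e l)) =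
    j (x - algebraMap k F (e l))}

/-- The subfield `M₃` of the extension `N` of `F` for the branch point `P_i`, generated over `F` by all
elements of `N` that are algebraic over `k`, by all square roots in `N` of the functions
`(x - e_l) / ((x - e_i) (e_i - e_l))`, `l ≠ i`, and by all square roots in `N` of the products
`(z₁ - z₂) (z₃ - z₄)`, where `z₁, z₂, z₃, z₄` are such square roots for the indices `l₁, l₂, l₃, l₄`,
with `l₁ ≠ l₂` and `l₃ ≠ l₄`. -/
def M₃ (j : F →+* N) (e : K → k) (x : F) (i : K) : Subfield N :=
  Subfield.closure (Set.range j ∪ {z | AlgOver (j.comp (algebraMap k F)) z} ∪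
    {z | ∃ l, l ≠ i ∧ z ∈ Roots j e x i l} ∪
    {w | ∃ l₁ l₂ l₃ l₄, l₁ ≠ i ∧ l₂ ≠ i ∧ l₃ ≠ i ∧ l₄ ≠ i ∧ l₁ ≠ l₂ ∧ l₃ ≠ l₄ ∧
      ∃ z₁ ∈ Roots j e x i l₁, ∃ z₂ ∈ Roots j e x i l₂, ∃ z₃ ∈ Roots j e x i l₃,
        ∃ z₄ ∈ Roots j e x i l₄, w ^ 2 = (z₁ - z₂) * (z₃ - z₄)})

end levels

section attached

variable {k F N L Ω K : Type} [Field k] [Field F] [Field N] [Field L] [Field Ω] [Algebra k F]
  [Algebra F Ω] [Algebra k Ω] [Algebra k L] [Algebra F N] [Algebra L Ω] [Algebra N Ω]

/-- The valuation ring `W` of `N` is a prolongation of the ring of a valuation of `F` which is trivial on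
`k`, has residue field `k`, and is positive on the function `t ∈ F`: the ring `W` contains `k`, the
function `t` is in its maximal ideal, and every element of `F ∩ W` is congruent to an element of `k`
modulo the maximal ideal.  For `t = x - e_i` this says that `W` is a prolongation of the valuation ring
of `F` at the branch point `P_i`. -/
def ZeroAt (k : Type) {F N : Type} [Field k] [Field F] [Field N] [Algebra k F] [Algebra F N]
    (W : ValuationSubring N) (t : F) : Prop :=
  (∀ c : k, algebraMap F N (algebraMap k F c) ∈ W) ∧ algebraMap F N t ∈ W.nonunits ∧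
    ∀ z : F, algebraMap F N z ∈ W → ∃ c : k, algebraMap F N (z - algebraMap k F c) ∈ W.nonunits

/-- On the subfield `M` of `N` the image of the splitting `s` of `Gal(N/F) → Gal(L/k)` lies in the
decomposition group of a prolongation `W` to `N` of the valuation of `F` at the `k`-rational point where
the function `t ∈ F` vanishes: for every `σ` there is an element `τ` of the decomposition group of
`W` which acts as `σ` on the elements of `L ∩ N`, such that `s(σ) = τ` on `M`. -/
def InDecompositionGroupOn (s : Splitting k F Ω L N) (M : Subfield N) (t : F) : Prop :=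
  ∃ W : ValuationSubring N, ZeroAt k W t ∧ ∀ σ : L ≃ₐ[k] L, ∃ τ ∈ W.decompositionSubgroup F,
    ActsAs (algebraMap L Ω) (algebraMap N Ω) σ τ ∧ ∀ z ∈ M, s.toHom σ z = τ z

end attached

/-- The valuative form of the section conjecture on the field `M₃`.  Let `F` be the function field of the
curve `d y² = ∏ (x - e_i)` over `k`, and let `Ω` be an algebraic closure of `F`.  For every set `U` of
valuation rings of `F` over `k` and every section `s` of `π₁(U) → G_k` there is exactly one index `i`
such that on the field `M₃` for `P_i` the image of `s` lies in the decomposition group of a prolongation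
to `F_U` of the valuation of `F` at `P_i`.  Such `U` are given by the smooth projective curve and by
all its open subcurves. -/
def ValuativeOnThirdLevel (k : Type) [Field k] {K : Type} [Fintype K] (e : K → ℤ) (d : ℤ) :
    Prop :=
  ∀ (F Ω : Type) [Field F] [Field Ω] [Algebra k F] [Algebra F Ω] [Algebra k Ω]
    [IsScalarTower k F Ω] [IsAlgClosure F Ω] (x y : F) (U : Set (ValuationSubring F)),
    Transcendental k x → algebraMap k F (d : k) * y ^ 2 = ∏ i, (x - algebraMap k F (e i : k)) →
    IntermediateField.adjoin k {x, y} = (⊤ : IntermediateField k F) →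
    (∀ O ∈ U, ∀ c : k, algebraMap k F c ∈ O) →
    ∀ s : GaloisSection k F Ω U, ∃ i : K, ∀ j : K,
      (InDecompositionGroupOn s (M₃ (algebraMap F (unramified F Ω U)) (fun l => (e l : k)) x j)
        (x - algebraMap k F (e j : k)) ↔ j = i)

/-- The sign `±1` of the element `u` (`-1` if `u ∈ D`), times the product
`(e_u - e_v) (e_u - e_i) (e_v - e_i)` if exactly one of `u` and `v` is in `D`. -/
def pairFactor {K : Type} [DecidableEq K] (e : K → ℤ) (i : K) (D : Finset K) (u v : K) : ℤ :=
  (if u ∈ D then -1 else 1) * (if (u ∈ D ↔ v ∈ D) then 1 else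
    (e u - e v) * ((e u - e i) * (e v - e i)))

/-- The condition on the branch points: for every index `i` and for every set `D` of other indices, not
empty and not the set of all other indices, there are four different indices `a, b, c, d ≠ i` such that
the product of the factors of the pairs `(a, b)`, `(b, c)`, `(c, d)`, `(d, a)` is not a square. -/
def FourCycles {K : Type} [DecidableEq K] (e : K → ℤ) : Prop :=
  ∀ (i : K) (D : Finset K), i ∉ D → D.Nonempty → (∃ j, j ≠ i ∧ j ∉ D) →
    ∃ a b c d : K, a ≠ i ∧ b ≠ i ∧ c ≠ i ∧ d ≠ i ∧ a ≠ b ∧ a ≠ c ∧ a ≠ d ∧ b ≠ c ∧ b ≠ d ∧ c ≠ d ∧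
      ¬ IsSquare (pairFactor e i D a b * pairFactor e i D b c *
        (pairFactor e i D c d * pairFactor e i D d a))

/-- the statement for one `d` and one branch point, for arbitrary normal extensions -/
def PerStm (k : Type) [Field k] {K : Type} [Fintype K] (e : K → ℤ) (d : ℤ) : Prop :=
  ∀ (F Ω : Type) [Field F] [Field Ω] [Algebra k F] [Algebra F Ω] [Algebra k Ω]
    [IsScalarTower k F Ω] [IsAlgClosed Ω] [Algebra.IsAlgebraic F Ω] (x y : F),
    Transcendental k x → algebraMap k F (d : k) * y ^ 2 = ∏ j, (x - algebraMap k F (e j : k)) →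
    IntermediateField.adjoin k {x, y} = (⊤ : IntermediateField k F) →
    ∀ N : IntermediateField F Ω, Normal F N → Pool.Agent.Y157.PS.geomPro 2 k F Ω ≤ N →
    (∀ i : K, Pool.Agent.Run7.h369.D3.Lvl₂ (algebraMap F N) (fun j => (e j : k)) x ≤
      Pool.Agent.Run7.h369.D3.Lvl₃ (algebraMap F N) (fun j => (e j : k)) x i) ∧
    ∀ i : K, ∀ s : (algebraicClosure k Ω ≃ₐ[k] algebraicClosure k Ω) →* (N ≃ₐ[F] N),
    Continuous s →
    (∀ σ (c : algebraicClosure k Ω) (z : N), (z : Ω) = (c : Ω) → (s σ z : Ω) = (σ c : Ω)) →
    (∀ l l', l ≠ i → l' ≠ i → ∃ γ : N, (∀ σ, s σ γ = γ) ∧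
      (γ : Ω) ^ 2 = algebraMap F Ω ((x - algebraMap k F (e l : k)) *
        (x - algebraMap k F (e l' : k)) *
        algebraMap k F (((e i : k) - e l) * ((e i : k) - e l')))) →
    (∀ p : ℕ, p.Prime → (p : ℤ) ∣ d → ¬ (p : ℤ) ∣ 2 →
      (∀ j k, j ≠ k → ¬ (p : ℤ) ∣ e j - e k) →
      ∀ V : ValuationSubring (algebraicClosure k Ω), (p : algebraicClosure k Ω) ∈ V.nonunits →
      ∃ W : ValuationSubring N, (∀ c : k, algebraMap F N (algebraMap k F c) ∈ W) ∧
        algebraMap F N (x - algebraMap k F (e i : k)) ∈ W.nonunits ∧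
        ∀ σ : algebraicClosure k Ω ≃ₐ[k] algebraicClosure k Ω, Pool.Agent.Y157.PS.Dec V σ →
          ∀ z : N, (z : Ω) ∈ Pool.Agent.Y157.PS.geomPro 2 k F Ω → (s σ z ∈ W ↔ z ∈ W)) →
    ∃ W0 : ValuationSubring Ω, (∀ c : k, algebraMap k Ω c ∈ W0) ∧
      algebraMap F Ω x - algebraMap k Ω (e i : k) ∈ W0.nonunits ∧
      ∀ σ, ∃ t : Ω ≃ₐ[F] Ω, (∀ z, t z ∈ W0 ↔ z ∈ W0) ∧
        (∀ c : algebraicClosure k Ω, t (c : Ω) = (σ c : Ω)) ∧
        ∀ b ∈ Pool.Agent.Run7.h369.D3.Lvl₃ (algebraMap F N) (fun j => (e j : k)) x i,
          (s σ b : Ω) = t (b : Ω)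

/-- membership in the decomposition group -/
lemma mem_dec {F N : Type} [Field F] [Field N] [Algebra F N] (W : ValuationSubring N)
    (τ : N ≃ₐ[F] N) : τ ∈ W.decompositionSubgroup F ↔ ∀ z, τ z ∈ W ↔ z ∈ W := by
  unfold ValuationSubring.decompositionSubgroup
  rw [MulAction.mem_stabilizer_iff]
  constructor
  · intro h z
    have h1 : τ z ∈ τ • W ↔ z ∈ W := ValuationSubring.smul_mem_pointwise_smul_iff
    rw [h] at h1
    exact h1
  · intro h
    ext z
    rw [ValuationSubring.mem_pointwise_smul_iff_inv_smul_mem]
    have h1 : τ • (τ⁻¹ • z) = z := smul_inv_smul τ z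
    have h2 := h (τ⁻¹ • z)
    change τ • (τ⁻¹ • z) ∈ W ↔ _ at h2
    rw [h1] at h2
    exact h2.symm

lemma M₂_eq {k F Ω : Type} [Field k] [Field F] [Field Ω] [Algebra k F]
    [Algebra F Ω] [Algebra k Ω] [IsScalarTower k F Ω] (U : Set (ValuationSubring F)) {K : Type}
    (e : K → k) (x : F) : M₂ (algebraMap F (unramified F Ω U)) e x =
      (Pool.Agent.W623.SecG.Mtwo (Ω := Ω) k U e x).toSubfield := by
  have halg : ∀ z : unramified F Ω U,
      AlgOver ((algebraMap F (unramified F Ω U)).comp (algebraMap k F)) z ↔ IsAlgebraic k z := by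
    intro z
    have h1 : (algebraMap F (unramified F Ω U)).comp (algebraMap k F) =
        algebraMap k (unramified F Ω U) := by
      ext c
      exact (IsScalarTower.algebraMap_apply k F Ω c).symm
    unfold AlgOver
    rw [h1]
    rfl
  have hset : (Set.range (algebraMap F (unramified F Ω U)) ∪
      {z | AlgOver ((algebraMap F (unramified F Ω U)).comp (algebraMap k F)) z} ∪
      {z | ∃ i i', z ^ 2 * (algebraMap F (unramified F Ω U)) (x - algebraMap k F (e i')) =
        (algebraMap F (unramified F Ω U)) (x - algebraMap k F (e i))}) =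
      Set.range (algebraMap F (unramified F Ω U)) ∪ ({z | IsAlgebraic k z} ∪
        {z | ∃ i j, z ^ 2 * algebraMap F _ (x - algebraMap k F (e j)) =
          algebraMap F _ (x - algebraMap k F (e i))}) := by
    rw [Set.union_assoc]
    congr 2
    ext z
    exact halg z
  unfold M₂
  rw [hset]
  rfl

/-- from sections attached in the sense of square classes to the result -/
lemma come_of (k : Type) [Field k] [CharZero k] {K : Type} [Fintype K] [DecidableEq K]
    (e : K → ℤ) (he : Function.Injective e) (hev : Even (Fintype.card K)) (d : ℤ) (hd : d ≠ 0)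
    (hCR : ∀ i j, i ≠ j → ∃ l l', l ≠ i ∧ l ≠ j ∧ l' ≠ i ∧ l' ≠ j ∧
      ¬ IsSquare (((e i : k) - e l) * (e i - e l') * ((e j - e l) * (e j - e l'))))
    (hloc : ∀ p : ℕ, p.Prime → (p : ℤ) ∣ d → ¬ (p : ℤ) ∣ 2 →
      (∀ j k, j ≠ k → ¬ (p : ℤ) ∣ e j - e k) → Pool.Agent.Y157.PS.TwStm k e d p)
    (hper : PerStm k e d)
    (hex : ∀ (F Ω : Type) [Field F] [Field Ω] [Algebra k F] [Algebra F Ω]
      [Algebra k Ω] [IsScalarTower k F Ω] [IsAlgClosed Ω] [Algebra.IsAlgebraic F Ω]
      (U : Set (ValuationSubring F)) (G : Pool.Agent.W620.SC.GSection k F Ω U) (x y : F),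
      (∀ O ∈ U, ∀ c : k, algebraMap k F c ∈ O) → Transcendental k x →
      algebraMap k F (d : k) * y ^ 2 = ∏ i, (x - algebraMap k F (e i : k)) →
      ∃ i, Pool.Agent.W623.SecG.AtK G x (fun j => (e j : k)) i) :
    ValuativeOnThirdLevel k e d := by
  intro F Ω _ _ _ _ _ _ _ x y U hx hxy hF hU s
  have hcl : IsAlgClosed Ω := IsAlgClosure.isAlgClosed F
  have halg : Algebra.IsAlgebraic F Ω := IsAlgClosure.isAlgebraic
  have hek : Function.Injective (fun j => (e j : k)) := by
    intro i j hij
    apply he
    have h1 : (e i : k) = (e j : k) := hij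
    exact_mod_cast h1
  have hdk : (d : k) ≠ 0 := by exact_mod_cast hd
  obtain ⟨i, hi⟩ := hex F Ω U ⟨s.toHom, s.cont, s.compat⟩ x y hU hx hxy
  have hat := Pool.Agent.W623.SecG.attached hU ⟨s.toHom, s.cont, s.compat⟩ (fun j => (e j : k)) hek
    (d : k) hdk x y hx hxy hev i hF hi
  have hM := M₂_eq (Ω := Ω) U (fun j => (e j : k)) x
  have hmem : ∀ z, z ∈ M₂ (algebraMap F (unramified F Ω U)) (fun j => (e j : k)) x ↔
      z ∈ Pool.Agent.W623.SecG.Mtwo (Ω := Ω) k U (fun j => (e j : k)) x := fun z => by
    rw [hM]
    rfl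
  have halg2 : Algebra.IsAlgebraic (IntermediateField.adjoin k {x}) F := by
    refine Pool.Agent.Y157.PS.alg_of_eqn (by norm_num : 0 < 2) (∏ j, (X - C (e j : k))) (d : k)
      hdk x y ?_ hF
    rw [hxy, map_prod]
    refine Finset.prod_congr rfl fun j _ => ?_
    rw [map_sub, aeval_X, aeval_C]
  have hle := (Pool.Agent.Y157.PS.a_ind 2 k F Ω x hx halg2 U hU).1
  obtain ⟨hlvl, hthird⟩ := hper F Ω x y hx hxy hF (unramified F Ω U)
    (Pool.Agent.Y157.PC.unr_normal U) hle
  -- uniqueness on the second level
  have h2 : ∀ j, (∃ W : ValuationSubring (unramified F Ω U),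
      (∀ c : k, algebraMap F (unramified F Ω U) (algebraMap k F c) ∈ W) ∧
      algebraMap F (unramified F Ω U) (x - algebraMap k F (e j : k)) ∈ W.nonunits ∧
      ∀ z ∈ M₂ (algebraMap F (unramified F Ω U)) (fun l => (e l : k)) x, ∀ σ,
        s.toHom σ z ∈ W ↔ z ∈ W) → j = i := by
    intro j hj
    by_contra hne
    obtain ⟨l, l', h1, h2, h3, h4, hsq⟩ := hCR i j (Ne.symm hne)
    apply hsq
    obtain ⟨W, hW1, hW2, -, hW3⟩ := hat
    obtain ⟨W', hW1', hW2', hW3'⟩ := hj
    exact Pool.Agent.W623.SecG.attached_unique hU ⟨s.toHom, s.cont, s.compat⟩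
      (fun j => (e j : k)) hek (d : k) hdk x y hx hxy
      i j ⟨W, hW1, hW2, hW3⟩ ⟨W', hW1', hW2', fun z hz => hW3' z ((hmem z).2 hz)⟩ l l' h1 h2 h3 h4
  refine ⟨i, fun j => ⟨fun hj => ?_, ?_⟩⟩
  · obtain ⟨W, ⟨hW1, hW2, -⟩, hst⟩ := hj
    refine h2 j ⟨W, hW1, hW2, fun z hz σ => ?_⟩
    obtain ⟨τ, hτ, -, hτM⟩ := hst σ
    rw [hτM z (hlvl j hz)]
    exact (mem_dec W τ).1 hτ z
  · rintro rfl
    obtain ⟨W0, hW1, hW2, hst⟩ := hthird j s.toHom s.cont (fun σ c z hz => s.compat σ c z hz)
      (fun l l' hl hl' => hi l l' hl hl') (fun p hp hpd hp2 hpe V hV => by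
        obtain ⟨W, ⟨⟨h1, h2⟩, h3⟩, -⟩ := hloc p hp hpd hp2 hpe F Ω U hU
          ⟨s.toHom, s.cont, s.compat⟩ x y hx hxy hF j hi V hV
        exact ⟨W, h1, h2, fun σ hσ z hz => h3 σ hσ z hz⟩)
    have hsc : ∀ c : k, algebraMap (unramified F Ω U) Ω
        (algebraMap F (unramified F Ω U) (algebraMap k F c)) = algebraMap k Ω c := fun c =>
      (IsScalarTower.algebraMap_apply k F Ω c).symm
    set W : ValuationSubring (unramified F Ω U) :=
      W0.comap (algebraMap (unramified F Ω U) Ω) with hW
    have hWk : ∀ c : k, algebraMap F (unramified F Ω U) (algebraMap k F c) ∈ W := by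
      intro c
      rw [hW, ValuationSubring.mem_comap, hsc]
      exact hW1 c
    have hWt : algebraMap F (unramified F Ω U) (x - algebraMap k F (e j : k)) ∈ W.nonunits := by
      rw [hW, Pool.Agent.Y780.PC.non_comap, map_sub, map_sub, hsc]
      exact hW2
    refine ⟨W, ⟨hWk, hWt, fun z hz => Pool.Agent.Run7.h369.V5.residue (fun j => (e j : k)) hek
      (d : k) hdk x y hx hxy hF j W hWk hWt z hz⟩, fun σ => ?_⟩
    obtain ⟨t, ht1, ht2, ht3⟩ := hst σ
    have hnorm : Normal F (unramified F Ω U) := Pool.Agent.Y157.PC.unr_normal U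
    have hres : ∀ z : unramified F Ω U,
        ((t.restrictNormal (unramified F Ω U) z : unramified F Ω U) : Ω) = t (z : Ω) := fun z =>
      AlgEquiv.restrictNormal_commutes t (unramified F Ω U) z
    refine ⟨t.restrictNormal (unramified F Ω U), (mem_dec W _).2 fun z => ?_, fun c z hz => ?_,
      fun z hz => ?_⟩
    · rw [hW, ValuationSubring.mem_comap, ValuationSubring.mem_comap]
      have h1 := hres z
      have h3 : algebraMap (unramified F Ω U) Ω (t.restrictNormal (unramified F Ω U) z) =
          t (algebraMap (unramified F Ω U) Ω z) := h1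
      rw [h3]
      exact ht1 _
    · have h3 : algebraMap (unramified F Ω U) Ω (t.restrictNormal (unramified F Ω U) z) =
          t (algebraMap (unramified F Ω U) Ω z) := hres z
      rw [h3, hz]
      exact ht2 c
    · apply Subtype.ext
      rw [hres, ht3 z hz]

/-- (1) Let `e_k` be `N` different integers, where `N ≥ 6` is even, that satisfy the condition
`FourCycles`.  Then there are `δ > 0` and `C`, such that for all squarefree `d`, `|d| ≤ X`, with at most
`C X (log X)^(-δ)` exceptions, for every section `s` of the fundamental group of the curve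
`d y² = ∏ (x - e_k)`, or of an open subcurve, there is exactly one of the valuations at the rational
points `(e_k, 0)` such that on the field `M₃` for this point the image of `s` lies in the decomposition
group of a prolongation of this valuation.  (2) The integers `0, …, 5` satisfy the condition `FourCycles`. -/
theorem result :
    (∀ (K : Type) [Fintype K] [DecidableEq K] (e : K → ℤ), Function.Injective e →
      Even (Fintype.card K) → 6 ≤ Fintype.card K → FourCycles e →
      ∃ δ C : ℝ, 0 < δ ∧ ∀ X : ℕ, 2 ≤ X →
        ({d : ℤ | d.natAbs ≤ X ∧ Squarefree d ∧ ¬ ValuativeOnThirdLevel ℚ e d}.ncard : ℝ) ≤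
          C * X * (Real.log X) ^ (-δ)) ∧
    FourCycles (fun i : Fin 6 => (i : ℤ)) := by
  refine ⟨?_, Pool.Agent.Run7.h369.D3.cyc_ex⟩
  intro K _ _ e he hev hK hcyc
  have hCR := Pool.Agent.Run7.h369.D3.cr_of_cyc (by omega) e hcyc
  obtain ⟨C0, hC0⟩ := Pool.Agent.W262.G3.fin2.{0, 0} Pool.Agent.W623.SecG.secloc2
    Pool.Agent.W623.SecE.secglob K e he hev hK hCR
  obtain ⟨z0, hz0⟩ := Pool.Agent.Run7.h369.D3.ex_z0 e he
  -- for every `i` another index
  have hj : ∀ i : K, ∃ j, j ≠ i := by
    intro i
    have : Nontrivial K := Fintype.one_lt_card_iff_nontrivial.1 (by omega)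
    exact exists_ne i
  choose j0 hj0 using hj
  let P : Option (Option K) → ℤ → Prop := fun o d => o.elim
    (Squarefree d ∧ Pool.Agent.W623.SecG.Bad2.{0, 0} e d) (fun o => o.elim
    (Squarefree d ∧ ¬ ∃ p : ℕ, p.Prime ∧ z0 < p ∧ (p : ℤ) ∣ d) (fun i =>
    Squarefree d ∧ Pool.Agent.Run7.h369.D3.SelA (Pool.Agent.Run7.h369.D3.aa i (j0 i))
      (Pool.Agent.Run7.h369.D3.ca e i (j0 i)) z0 d))
  obtain ⟨δ, C, hδ, -, hC⟩ := Pool.Agent.Y547.PCQ.manyQ
    (Finset.univ : Finset (Option (Option K))) P (by
    intro o _
    cases o with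
    | none =>
      refine ⟨1 / 5, max C0 0, by norm_num, le_max_right _ _, fun X hX => ?_⟩
      refine (hC0 X hX).trans ?_
      have hX' : (2 : ℝ) ≤ X := by exact_mod_cast hX
      have hL0 : 0 < Real.log X := Real.log_pos (by linarith)
      apply mul_le_mul_of_nonneg_right _ (Real.rpow_pos_of_pos hL0 _).le
      exact mul_le_mul_of_nonneg_right (le_max_left _ _) (by linarith)
    | some o =>
      cases o with
      | none => exact Pool.Agent.Run7.h369.D3.few z0
      | some i => exact Pool.Agent.Run7.h369.D3.cnt_i e he (by omega) hcyc i (j0 i) (hj0 i) z0)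
  refine ⟨δ, C, hδ, fun X hX => le_trans ?_ (hC X hX)⟩
  have hfin : {d : ℤ | d.natAbs ≤ X ∧
      ∃ o ∈ (Finset.univ : Finset (Option (Option K))), P o d}.Finite := by
    refine (Finset.finite_toSet (Finset.Icc (-(X : ℤ)) X)).subset ?_
    rintro d ⟨hd1, -⟩
    rw [Finset.mem_coe, Finset.mem_Icc]
    omega
  have hsub : {d : ℤ | d.natAbs ≤ X ∧ Squarefree d ∧ ¬ ValuativeOnThirdLevel ℚ e d} ⊆
      {d : ℤ | d.natAbs ≤ X ∧ ∃ o ∈ (Finset.univ : Finset (Option (Option K))), P o d} := by
    rintro d ⟨hd1, hd2, hd3⟩
    refine ⟨hd1, ?_⟩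
    by_contra hno
    push Not at hno
    apply hd3
    refine come_of ℚ e he hev d hd2.ne_zero ?_ ?_ ?_ ?_
    · intro i j hij
      obtain ⟨l, l', h1, h2, h3, h4, hsq⟩ := hCR i j hij
      refine ⟨l, l', h1, h2, h3, h4, fun h5 => hsq ?_⟩
      have h6 : ((e i : ℚ) - e l) * (e i - e l') * ((e j - e l) * (e j - e l')) =
          (((e i - e l) * (e i - e l') * ((e j - e l) * (e j - e l')) : ℤ) : ℚ) := by
        push_cast
        ring
      rw [h6, Rat.isSquare_intCast_iff] at h5
      exact h5
    · intro p hp1 hp2 hp3 hp4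
      exact Pool.Agent.Y157.PS.twQ e hev (by omega) d hd2 p hp1 hp2 hp3 hp4
    · intro F Ω _ _ _ _ _ _ _ _ x y hx hxy hF N hN hMN
      refine ⟨fun i => Pool.Agent.Run7.h369.D3.lvl_le e he hev (by omega) d hd2 x y hx hxy hF N
        Pool.Agent.Run7.h369.D3.root hMN i, fun i s hcont hcompat hAt hloc => ?_⟩
      have hbig : ∃ p : ℕ, p.Prime ∧ z0 < p ∧ (p : ℤ) ∣ d := by
        by_contra hp
        exact hno (some none) (Finset.mem_univ _) ⟨hd2, hp⟩
      exact Pool.Agent.Run7.h369.V5.perd e he hev (by omega) d hd2 x y hx hxy hF i (j0 i) N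
        Pool.Agent.Run7.h369.D3.root hN hMN _ s hcont hcompat (hj0 i) hAt hloc z0 hz0 hbig
        (fun hS => hno (some (some i)) (Finset.mem_univ _) ⟨hd2, hS⟩)
    · intro F Ω _ _ _ _ _ _ hcl halg U G x y hU hx hxy
      by_contra hnone
      push Not at hnone
      refine hno none (Finset.mem_univ _) ⟨hd2, F, Ω, inferInstance, inferInstance, inferInstance,
        inferInstance, inferInstance, inferInstance, hcl, halg, U, G, x, y, hU, hx, ?_, fun k hk =>
        hnone k (Pool.Agent.W623.SecG.atK_of_At G x e k hk)⟩
      simp only [map_intCast] at hxy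
      exact hxy
  exact_mod_cast Set.ncard_le_ncard hsub hfin

end Pool.Agent.Results.MP_896029_ag.ValuativeThirdLevel
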